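import Pool.Agent.Q27.AutDense.Count

/-! Finitely generated subsemigroups of density zero whose automorphic closure is everything except
the identity element. -/

namespace Pool.Agent.Results.MP_b831a3_al.FullClosure

open Filter Topology

/-- The probability that a uniformly random reduced word of length at most `n` over the basis of the
free group `F_r` lies in `S`; `FreeGroup.norm w` is the length of the reduced word of `w`. -/
noncomputable def prob (r : ℕ) (S : Set (FreeGroup (Fin r))) (n : ℕ) : ℝ :=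
  ({w : FreeGroup (Fin r) | w ∈ S ∧ w.norm ≤ n}.ncard : ℝ) /
    ({w : FreeGroup (Fin r) | w.norm ≤ n}.ncard : ℝ)

/-- The automorphic closure of a subset of the free group `F_r`. -/
def autClosure (r : ℕ) (S : Set (FreeGroup (Fin r))) : Set (FreeGroup (Fin r)) :=
  {g | ∃ φ : FreeGroup (Fin r) ≃* FreeGroup (Fin r), ∃ m ∈ S, g = φ m}

theorem rank_add_two (k : ℕ) : ∃ T : Finset (FreeGroup (Fin (k + 2))),
    Tendsto (prob (k + 2) (Subsemigroup.closure (T : Set (FreeGroup (Fin (k + 2)))))) atTop (𝓝 0) ∧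
    autClosure (k + 2) (Subsemigroup.closure (T : Set (FreeGroup (Fin (k + 2))))) = {1}ᶜ ∧
    Tendsto (prob (k + 2) (autClosure (k + 2)
      (Subsemigroup.closure (T : Set (FreeGroup (Fin (k + 2))))))) atTop (𝓝 1) := by
  classical
  have hT : (Q27.AutDense.T k).Finite := by
    apply (Q27.AutDense.finite_ball 6).subset
    rintro g ⟨d, u, hd, -, -, hu, rfl⟩
    have h1 : FreeGroup.norm ((Q27.AutDense.X : FreeGroup (Fin (k + 2))) ^ d) ≤ 1 := by
      rcases hd with rfl | rfl
      · rw [zpow_one]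
        exact (FreeGroup.norm_of _).le
      · rw [zpow_neg, zpow_one, FreeGroup.norm_inv_eq]
        exact (FreeGroup.norm_of _).le
    have h2 := FreeGroup.norm_mul_le ((Q27.AutDense.X : FreeGroup (Fin (k + 2))) ^ d) u
    rw [Set.mem_ofPred_eq]
    omega
  have hM : (Subsemigroup.closure ((hT.toFinset : Finset (FreeGroup (Fin (k + 2)))) :
      Set (FreeGroup (Fin (k + 2))))) = Q27.AutDense.M k := by
    rw [Set.Finite.coe_toFinset]
    rfl
  refine ⟨hT.toFinset, ?_⟩
  rw [hM]
  have hclos : autClosure (k + 2) (Q27.AutDense.M k : Set (FreeGroup (Fin (k + 2)))) = {1}ᶜ := by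
    ext w
    rw [Set.mem_compl_iff, Set.mem_singleton_iff]
    constructor
    · rintro ⟨φ, m, hm, rfl⟩ h
      rw [EmbeddingLike.map_eq_one_iff] at h
      subst h
      obtain ⟨⟨a, ha, -⟩, -⟩ := Q27.AutDense.good_M _ hm
      simp at ha
    · intro hw
      obtain ⟨φ, m, hm, h⟩ := Q27.AutDense.main_alg w hw
      exact ⟨φ, m, hm, h⟩
  have hpos : ∀ n : ℕ, (0 : ℝ) < ({w : FreeGroup (Fin (k + 2)) | w.norm ≤ n}.ncard : ℝ) := by
    intro n
    have h1 := Q27.AutDense.ball_lower (k := k) n
    have h2 : 0 < (2 * k + 3) ^ n := by positivity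
    exact_mod_cast lt_of_lt_of_le h2 h1
  refine ⟨?_, hclos, ?_⟩
  · refine squeeze_zero ?_ ?_ (Q27.AutDense.lim_aux k)
    · intro n
      exact div_nonneg (Nat.cast_nonneg _) (Nat.cast_nonneg _)
    · intro n
      unfold prob
      have h1 := Q27.AutDense.M_upper (k := k) n
      have h2 := Q27.AutDense.ball_lower (k := k) n
      have h1' : ({w : FreeGroup (Fin (k + 2)) | w ∈ Q27.AutDense.M k ∧ w.norm ≤ n}.ncard : ℝ) ≤
          (n : ℝ) * (2 * (k + 2) * ((((2 * k + 3) ^ 2 - 1) ^ (n / 2)) * (2 * k + 3))) := by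
        have h3 : (1 : ℕ) ≤ (2 * k + 3) ^ 2 := Nat.one_le_pow _ _ (by omega)
        have h4 := (Nat.cast_le (α := ℝ)).2 h1
        push_cast [Nat.cast_sub h3] at h4
        exact h4
      have h2' : ((2 * k + 3 : ℝ)) ^ n ≤ ({w : FreeGroup (Fin (k + 2)) | w.norm ≤ n}.ncard : ℝ) := by
        exact_mod_cast h2
      apply div_le_div₀ _ h1' (by positivity) h2'
      apply mul_nonneg (Nat.cast_nonneg n)
      apply mul_nonneg (by positivity)
      apply mul_nonneg _ (by positivity)
      apply pow_nonneg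
      have : (0 : ℝ) ≤ k := Nat.cast_nonneg k
      nlinarith
  · rw [hclos]
    have h0 : Tendsto (fun n : ℕ => 1 - (1 / 3 : ℝ) ^ n) atTop (𝓝 1) := by
      have := (tendsto_pow_atTop_nhds_zero_of_lt_one (r := (1 / 3 : ℝ)) (by norm_num)
        (by norm_num)).const_sub 1
      simpa using this
    refine tendsto_of_tendsto_of_tendsto_of_le_of_le h0 tendsto_const_nhds ?_ ?_
    · intro n
      unfold prob
      simp only
      rw [le_div_iff₀ (hpos n), sub_mul, one_mul]
      have h1 : {w : FreeGroup (Fin (k + 2)) | w.norm ≤ n}.ncard ≤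
          {w : FreeGroup (Fin (k + 2)) | w ∈ ({1}ᶜ : Set (FreeGroup (Fin (k + 2)))) ∧
            w.norm ≤ n}.ncard + 1 := by
        have h2 : {w : FreeGroup (Fin (k + 2)) | w.norm ≤ n} ⊆
            insert 1 {w : FreeGroup (Fin (k + 2)) | w ∈ ({1}ᶜ : Set (FreeGroup (Fin (k + 2)))) ∧
            w.norm ≤ n} := by
          intro w hw
          by_cases h : w = 1
          · exact Set.mem_insert_iff.2 (Or.inl h)
          · exact Set.mem_insert_iff.2 (Or.inr ⟨h, hw⟩)
        refine (Set.ncard_le_ncard h2 ?_).trans (Set.ncard_insert_le _ _)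
        apply Set.Finite.insert
        exact (Q27.AutDense.finite_ball n).subset fun w hw => hw.2
      have h3 : (1 : ℝ) ≤ (1 / 3 : ℝ) ^ n *
          ({w : FreeGroup (Fin (k + 2)) | w.norm ≤ n}.ncard : ℝ) := by
        have h4 : ((3 : ℝ)) ^ n ≤ ({w : FreeGroup (Fin (k + 2)) | w.norm ≤ n}.ncard : ℝ) := by
          have h5 := Q27.AutDense.ball_lower (k := k) n
          have h6 : (3 : ℕ) ^ n ≤ (2 * k + 3) ^ n := Nat.pow_le_pow_left (by omega) n
          exact_mod_cast h6.trans h5
        calc (1 : ℝ) = (1 / 3 : ℝ) ^ n * 3 ^ n := by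
              rw [← mul_pow]; norm_num
          _ ≤ _ := mul_le_mul_of_nonneg_left h4 (by positivity)
      have h1' := (Nat.cast_le (α := ℝ)).2 h1
      push_cast at h1'
      linarith
    · intro n
      unfold prob
      rw [div_le_one (hpos n)]
      have : {w : FreeGroup (Fin (k + 2)) | w ∈ ({1}ᶜ : Set (FreeGroup (Fin (k + 2)))) ∧
            w.norm ≤ n}.ncard ≤ {w : FreeGroup (Fin (k + 2)) | w.norm ≤ n}.ncard :=
        Set.ncard_le_ncard (fun w hw => hw.2) (Q27.AutDense.finite_ball n)
      exact_mod_cast this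

/-- For every rank `r ≥ 2` there is a finitely generated subsemigroup `M` of the free group `F_r`
(the set of all nonempty products of elements of a finite set `T`) which has density zero, while its
automorphic closure is `F_r` without the identity element and so has density one. -/
theorem result (r : ℕ) (hr : 2 ≤ r) : ∃ (M : Subsemigroup (FreeGroup (Fin r)))
    (T : Finset (FreeGroup (Fin r))), M = Subsemigroup.closure (T : Set (FreeGroup (Fin r))) ∧
      Tendsto (prob r M) atTop (𝓝 0) ∧ autClosure r M = {1}ᶜ ∧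
      Tendsto (prob r (autClosure r M)) atTop (𝓝 1) := by
  obtain ⟨k, rfl⟩ : ∃ k, r = k + 2 := ⟨r - 2, by omega⟩
  obtain ⟨T, h1, h2, h3⟩ := rank_add_two k
  exact ⟨_, T, rfl, h1, h2, h3⟩

end Pool.Agent.Results.MP_b831a3_al.FullClosure
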